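import Mathlib

/-!
# MP_293cc0_an: the second pass, unary times

`second`: a set of `4 ^ (k ^ 2) * (M + 1)` indices contains `k` indices such that a colour `R a b c` (four colours) depends
only on `a < b`. `intervals`: a family of intervals `[x, β x)` contains many pairwise intersecting or many
pairwise disjoint ones.
-/

set_option autoImplicit false

namespace Pool.Agent.Lib.MP_293cc0_an

open Finset

theorem second (R : ℕ → ℕ → ℕ → Bool × Bool) (I : Finset ℕ) (k : ℕ) :
    ∀ M : ℕ, 4 ^ (k ^ 2) * (M + 1) ≤ I.card →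
    ∃ (Q V : Finset ℕ) (σ : ℕ → ℕ → Bool × Bool), Q ⊆ I ∧ V ⊆ I ∧ Q.card = k ∧ M + 1 ≤ V.card ∧
      (∀ a ∈ Q, ∀ v ∈ V, a < v) ∧
      (∀ a ∈ Q, ∀ b ∈ Q, a < b → ∀ v ∈ V, R a b v = σ a b) ∧
      ∀ a ∈ Q, ∀ b ∈ Q, ∀ c ∈ Q, a < b → b < c → R a b c = σ a b := by
  classical
  induction k with
  | zero =>
    intro M hM
    refine ⟨∅, I, fun _ _ => (true, true), by simp, by simp, by simp, ?_, by simp, by simp, by simp⟩
    simpa using hM
  | succ k ih =>
    intro M hM
    obtain ⟨Q, V, σ, hQI, hVI, hQk, hV, hQV, h1, h2⟩ := ih (4 ^ (k + 1) * (M + 1) - 1) (by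
      have h3 : 1 ≤ 4 ^ (k + 1) * (M + 1) := Nat.one_le_iff_ne_zero.2 (by positivity)
      rw [Nat.sub_add_cancel h3, ← mul_assoc, ← pow_add]
      refine le_trans (Nat.mul_le_mul_right _ (Nat.pow_le_pow_right (by norm_num) ?_)) hM
      ring_nf
      omega)
    have h3 : 1 ≤ 4 ^ (k + 1) * (M + 1) := Nat.one_le_iff_ne_zero.2 (by positivity)
    rw [Nat.sub_add_cancel h3] at hV
    have hne : V.Nonempty := by
      rw [← Finset.card_pos]
      omega
    obtain ⟨x, hx⟩ : ∃ x, x = V.min' hne := ⟨_, rfl⟩
    have hxV : x ∈ V := hx ▸ V.min'_mem hne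
    have hxmin : ∀ v ∈ V, x ≤ v := fun v hv => hx ▸ V.min'_le v hv
    have hxQ : x ∉ Q := fun h => lt_irrefl _ (hQV x h x hxV)
    have hVx : 4 ^ k * (M + 1) ≤ (V.erase x).card := by
      rw [Finset.card_erase_of_mem hxV]
      have h4 : 4 ^ (k + 1) * (M + 1) = 4 * (4 ^ k * (M + 1)) := by ring
      have h5 : 1 ≤ 4 ^ k * (M + 1) := Nat.one_le_iff_ne_zero.2 (by positivity)
      omega
    obtain ⟨g, -, hg⟩ := Finset.exists_le_card_fiber_of_mul_le_card_of_maps_to
      (s := V.erase x) (t := (Finset.univ : Finset (Q → Bool × Bool)))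
      (f := fun v => fun a : Q => R a.1 x v) (n := M + 1)
      (fun v _ => Finset.mem_univ _) ⟨fun _ => (true, true), Finset.mem_univ _⟩ (by
        rw [Finset.card_univ, Fintype.card_fun, Fintype.card_coe, hQk]
        simpa using hVx)
    obtain ⟨V', hV'⟩ : ∃ V', V' = (V.erase x).filter
      (fun v => (fun a : Q => R a.1 x v) = g) := ⟨_, rfl⟩
    have hV'V : V' ⊆ V := by
      rw [hV']
      exact (Finset.filter_subset _ _).trans (Finset.erase_subset _ _)
    have hV'x : ∀ v ∈ V', x < v := by
      intro v hv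
      rw [hV'] at hv
      have h6 := Finset.mem_erase.1 (Finset.mem_filter.1 hv).1
      exact lt_of_le_of_ne (hxmin v h6.2) (Ne.symm h6.1)
    have hV'g : ∀ v ∈ V', ∀ a (ha : a ∈ Q), R a x v = g ⟨a, ha⟩ := by
      intro v hv a ha
      rw [hV'] at hv
      exact congrFun (Finset.mem_filter.1 hv).2 ⟨a, ha⟩
    refine ⟨insert x Q, V', fun a b => if b = x then (if ha : a ∈ Q then g ⟨a, ha⟩ else (true, true))
      else σ a b, ?_, hV'V.trans hVI, ?_, ?_, ?_, ?_, ?_⟩
    · intro a ha
      rcases Finset.mem_insert.1 ha with h | h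
      · rw [h]; exact hVI hxV
      · exact hQI h
    · rw [Finset.card_insert_of_notMem hxQ, hQk]
    · rw [hV']
      exact hg
    · intro a ha v hv
      rcases Finset.mem_insert.1 ha with h | h
      · rw [h]; exact hV'x v hv
      · exact hQV a h v (hV'V hv)
    · intro a ha b hb hab v hv
      rcases Finset.mem_insert.1 hb with h | h
      · subst h
        have haQ : a ∈ Q := (Finset.mem_insert.1 ha).resolve_left hab.ne
        simp only [if_true, dif_pos haQ]
        exact hV'g v hv a haQ
      · have hbx : b ≠ x := fun e => hxQ (e ▸ h)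
        have hax : a ≠ x := by
          intro e
          rw [e] at hab
          exact absurd hab (not_lt.2 (hQV b h x hxV).le)
        simp only [if_neg hbx]
        exact h1 a ((Finset.mem_insert.1 ha).resolve_left hax) b h hab v (hV'V hv)
    · intro a ha b hb c hc hab hbc
      rcases Finset.mem_insert.1 hb with h | h
      · subst h
        have hcb : c ≠ b := hbc.ne'
        have hcQ := (Finset.mem_insert.1 hc).resolve_left hcb
        exact absurd hbc (not_lt.2 (hQV c hcQ b hxV).le)
      · have hbx : b ≠ x := fun e => hxQ (e ▸ h)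
        have hax : a ≠ x := by
          intro e
          rw [e] at hab
          exact absurd hab (not_lt.2 (hQV b h x hxV).le)
        have haQ := (Finset.mem_insert.1 ha).resolve_left hax
        simp only [if_neg hbx]
        rcases Finset.mem_insert.1 hc with h' | h'
        · rw [h']
          exact h1 a haQ b h hab x hxV
        · exact h2 a haQ b h c h' hab hbc

theorem intervals (β : ℕ → ℕ) (m k : ℕ) :
    ∀ Q : Finset ℕ, (∀ x ∈ Q, x < β x) → k * m ≤ Q.card →
    (∃ S ⊆ Q, m ≤ S.card ∧ ∀ x ∈ S, ∀ y ∈ S, y < β x) ∨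
      ∃ S ⊆ Q, k ≤ S.card ∧ ∀ x ∈ S, ∀ y ∈ S, x < y → β x ≤ y := by
  classical
  induction k with
  | zero =>
    intro Q _ _
    exact Or.inr ⟨∅, by simp, by simp, by simp⟩
  | succ k ih =>
    intro Q hβ hQ
    rcases Q.eq_empty_or_nonempty with rfl | hne
    · left
      refine ⟨∅, by simp, ?_, by simp⟩
      rw [Finset.card_empty] at hQ ⊢
      have : 1 * m ≤ (k + 1) * m := Nat.mul_le_mul_right _ (by omega)
      omega
    obtain ⟨x, hx, hmin⟩ := Finset.exists_min_image Q β hne
    by_cases hm : m ≤ (Q.filter fun y => y < β x).card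
    · left
      refine ⟨_, Finset.filter_subset _ _, hm, ?_⟩
      intro y hy z hz
      exact lt_of_lt_of_le (Finset.mem_filter.1 hz).2 (hmin y (Finset.mem_filter.1 hy).1)
    · have h1 := Finset.card_filter_add_card_filter_not (s := Q) (fun y => y < β x)
      have h2 : k * m ≤ (Q.filter fun y => ¬ y < β x).card := by
        have : (k + 1) * m = k * m + m := by ring
        omega
      rcases ih (Q.filter fun y => ¬ y < β x) (fun y hy => hβ y (Finset.mem_filter.1 hy).1) h2 with
        ⟨S, hS, hm', h3⟩ | ⟨S, hS, hk, h3⟩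
      · exact Or.inl ⟨S, hS.trans (Finset.filter_subset _ _), hm', h3⟩
      · right
        have hxS : x ∉ S := fun h => (Finset.mem_filter.1 (hS h)).2 (hβ x hx)
        refine ⟨insert x S, ?_, by rw [Finset.card_insert_of_notMem hxS]; omega, ?_⟩
        · intro y hy
          rcases Finset.mem_insert.1 hy with h | h
          · rw [h]; exact hx
          · exact Finset.filter_subset _ _ (hS h)
        · intro y hy z hz hyz
          rcases Finset.mem_insert.1 hz with h | h
          · rcases Finset.mem_insert.1 hy with h' | h'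
            · rw [h, h'] at hyz
              exact absurd hyz (lt_irrefl _)
            · rw [h] at hyz
              have h4 := (Finset.mem_filter.1 (hS h')).2
              exact absurd (lt_trans hyz (hβ x hx)) h4
          · rcases Finset.mem_insert.1 hy with h' | h'
            · rw [h']
              exact not_lt.1 (Finset.mem_filter.1 (hS h)).2
            · exact h3 y h' z h hyz

end Pool.Agent.Lib.MP_293cc0_an
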