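import Pool.Agent.Lib.MP_293cc0_an.F.Rules
import Pool.Agent.Lib.MP_293cc0_an.F.Second

/-!
# MP_293cc0_an: a general comb has logarithmic savings

`Comb.savF`: a comb with `4 ^ (m ^ 2) + 1` points, `m = 8 (1024 p ^ 10) ^ 10 + 1`, has savings `p`. After the second pass the types of the pairs
are constant; in the last column every point is low in all its M-pairs or high in all its
M-pairs, so half of the points have no M-pair: a comb of class E.
-/

set_option autoImplicit false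

namespace Pool.Agent.Lib.MP_293cc0_an

open Finset

variable {X : Type} [MetricSpace X] {N : ℕ}

theorem Comb.savF (C : Comb X N) (hI : C.Iff) {p : ℕ} (hp : 1 ≤ p) {m : ℕ}
    (hm : 2 * (4 * (1024 * p ^ 10) ^ 10) + 1 ≤ m) (hN : 4 ^ (m ^ 2) + 1 ≤ N) : Sav X p := by
  classical
  obtain ⟨P, hP⟩ : ∃ P, P = 4 * (1024 * p ^ 10) ^ 10 := ⟨_, rfl⟩
  rw [← hP] at hm
  have hPpos : 0 < P := by rw [hP]; positivity
  obtain ⟨Q, V, σ, hQI, -, hQm, -, -, -, hσ⟩ := second
    (fun a b c => (decide (C.e a b ≤ C.e a c), decide (C.e a b ≤ C.e b c))) (range (N - 1)) m 0 (by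
      rw [Finset.card_range]
      omega)
  have hQN : ∀ a ∈ Q, a + 1 < N := by
    intro a ha
    have := Finset.mem_range.1 (hQI ha)
    omega
  have hne : Q.Nonempty := by
    rw [← Finset.card_pos]
    omega
  obtain ⟨d, hd⟩ : ∃ d, d = Q.max' hne := ⟨_, rfl⟩
  have hdQ : d ∈ Q := hd ▸ Q.max'_mem hne
  have hdmax : ∀ v ∈ Q, v ≤ d := fun v hv => hd ▸ Q.le_max' v hv
  have hlt : ∀ v ∈ Q.erase d, v < d := fun v hv =>
    lt_of_le_of_ne (hdmax v (Finset.mem_of_mem_erase hv)) (Finset.ne_of_mem_erase hv)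
  -- the vertices which are low in an M-pair
  obtain ⟨Lo, hLo⟩ : ∃ Lo, Lo = (Q.erase d).filter fun x => ∃ y ∈ Q.erase d, y ≠ x ∧
      C.e x d < C.e x y ∧ C.e x y ≤ C.e y d := ⟨_, rfl⟩
  obtain ⟨Hi, hHi⟩ : ∃ Hi, Hi = (Q.erase d).filter fun x => ¬ ∃ y ∈ Q.erase d, y ≠ x ∧
      C.e x d < C.e x y ∧ C.e x y ≤ C.e y d := ⟨_, rfl⟩
  have hcard : Lo.card + Hi.card = (Q.erase d).card := by
    rw [hLo, hHi]
    exact Finset.card_filter_add_card_filter_not _
  rw [Finset.card_erase_of_mem hdQ, hQm] at hcard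
  -- a half without M-pairs
  have hT : ∃ T ⊆ Q.erase d, P ≤ T.card ∧ ∀ a ∈ T, ∀ b ∈ T, a ≠ b →
      ¬ (C.e a d < C.e a b ∧ C.e a b ≤ C.e b d) := by
    by_cases hLoP : P ≤ Lo.card
    · refine ⟨Lo, by rw [hLo]; exact Finset.filter_subset _ _, hLoP, ?_⟩
      rintro a ha b hb hab ⟨h1, h2⟩
      rw [hLo, Finset.mem_filter] at ha hb
      obtain ⟨hbQ, y, hy, hyb, h3, h4⟩ := hb
      -- `b` is low in the pair `b, y`, high in the pair `a, b`
      have hay : a ≠ y := by
        rintro rfl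
        rw [C.symm b a] at h3 h4
        exact absurd (lt_of_le_of_lt h2 h3) (lt_irrefl _)
      have h5 := C.adding hI (w := b) (x := a) (y := y) (z := d) (hlt b hbQ) (hlt a ha.1)
        (hlt y hy) (hQN d hdQ) hab.symm hyb.symm hay
        (by rw [C.symm b a]; exact (lt_of_le_of_lt h2 h3).le) h4
      rw [C.symm b a] at h5
      exact absurd h1 (not_lt.2 h5)
    · refine ⟨Hi, by rw [hHi]; exact Finset.filter_subset _ _, by omega, ?_⟩
      rintro a ha b hb hab ⟨h1, h2⟩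
      rw [hHi, Finset.mem_filter] at ha hb
      exact ha.2 ⟨b, hb.1, hab.symm, h1, h2⟩
  obtain ⟨T, hTQ, hTP, hTM⟩ := hT
  have hTQ' : ∀ a ∈ T, a ∈ Q := fun a ha => Finset.mem_of_mem_erase (hTQ ha)
  have heq : ∀ a ∈ T, ∀ b ∈ T, a < b → (σ a b).1 = (σ a b).2 := by
    intro a ha b hb hab
    have h1 := hσ a (hTQ' a ha) b (hTQ' b hb) d hdQ hab (hlt b (hTQ hb))
    have h2 := hTM a ha b hb hab.ne
    have h3 := hTM b hb a ha hab.ne'
    rw [← h1]
    simp only
    rw [decide_eq_decide]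
    constructor
    · intro h4
      by_contra h5
      exact h3 ⟨by rw [C.symm b a]; exact not_le.1 h5, by rw [C.symm b a]; exact h4⟩
    · intro h4
      by_contra h5
      exact h2 ⟨not_le.1 h5, h4⟩
  obtain ⟨q, hq, hqN, hmem⟩ := C.exists_sub T (fun a ha => by have := hQN a (hTQ' a ha); omega) hTP
  refine Comb.savE (C.sub q hq hqN) (τ := fun i j => if (σ (q i) (q j)).1 = true then 0 else P)
    ?_ hp (by rw [← hP])
  intro i j k hij hjk hk
  have hi := (hmem i (by omega)).1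
  have hj := (hmem j (by omega)).1
  have hk' := (hmem k (by omega)).1
  have hqij := hq i j hij (by omega)
  have hqjk := hq j k hjk (by omega)
  have h1 := hσ _ (hTQ' _ hi) _ (hTQ' _ hj) _ (hTQ' _ hk') hqij hqjk
  have h2 := heq _ hi _ hj hqij
  have h3 : decide (C.e (q i) (q j) ≤ C.e (q i) (q k)) = (σ (q i) (q j)).1 := by rw [← h1]
  have h4 : decide (C.e (q i) (q j) ≤ C.e (q j) (q k)) = (σ (q i) (q j)).1 := by rw [h2, ← h1]
  by_cases hs : (σ (q i) (q j)).1 = true
  · rw [hs] at h3 h4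
    refine ⟨fun h5 => ?_, fun _ => ⟨of_decide_eq_true h3, of_decide_eq_true h4⟩⟩
    simp only [if_pos hs] at h5
    exact absurd h5 (Nat.not_lt_zero _)
  · have hs' : (σ (q i) (q j)).1 = false := by simpa using hs
    rw [hs'] at h3 h4
    refine ⟨fun _ => ⟨(not_le.1 (of_decide_eq_false h3)).le, (not_le.1 (of_decide_eq_false h4)).le⟩,
      fun h5 => ?_⟩
    simp only [if_neg hs] at h5
    omega

/-- **A large metric space has double logarithmic savings.** -/
theorem sav_loglog (X : Type) [MetricSpace X] [Fintype X] {p m : ℕ} (hp : 1 ≤ p)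
    (hm : 2 * (4 * (1024 * p ^ 10) ^ 10) + 1 ≤ m)
    (h : 2 ^ ((4 ^ (m ^ 2) + 1 + 2) ^ 4) ≤ Fintype.card X) : Sav X p := by
  obtain ⟨C, hI⟩ := exists_combI X (4 ^ (m ^ 2) + 1) h
  exact C.savF hI hp hm le_rfl

end Pool.Agent.Lib.MP_293cc0_an
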