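import Pool.Agent.Lib.MP_293cc0_an.First
import Pool.Agent.Lib.MP_293cc0_an.E.Sav

/-!
# MP_293cc0_an: combs with equivalences, the adding trick

`Comb.Iff`: the order of the weights is equivalent to the order of the sums. `Comb.adding`: for `w, x, y < z < t`:
`e w x ≤ e w y` and `e w y ≤ e y z` give `e w x ≤ e x z`; `Comb.adding'` is the dual statement.
`Comb.savUM`: if `e b c ≤ e a b` for all `a < b < c`, then every second point gives a U-comb.
-/

set_option autoImplicit false

namespace Pool.Agent.Lib.MP_293cc0_an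

open Finset

variable {X : Type} [MetricSpace X] {N : ℕ}

/-- The order of the sums gives the order of the weights. -/
def Comb.Iff (C : Comb X N) : Prop :=
  ∀ a b c t, a < t → b < t → c < t → t < N → a ≠ b → a ≠ c → b ≠ c →
    dist (C.x a) (C.x b) + dist (C.x c) (C.x t) ≤ dist (C.x a) (C.x c) + dist (C.x b) (C.x t) →
    C.e a b ≤ C.e a c

theorem Comb.Iff.sub {C : Comb X N} (hI : C.Iff) {M : ℕ} (q : ℕ → ℕ)
    (hq : ∀ i j, i < j → j < M → q i < q j) (hN : ∀ i, i < M → q i < N) :
    (C.sub q hq hN).Iff := by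
  intro a b c t ha hb hc ht hab hac hbc h
  have hne : ∀ i j, i < t → j < t → i ≠ j → q i ≠ q j := by
    intro i j hi hj hij h2
    rcases lt_trichotomy i j with h3 | h3 | h3
    · exact absurd h2 (ne_of_lt (hq i j h3 (lt_trans hj ht)))
    · exact hij h3
    · exact absurd h2.symm (ne_of_lt (hq j i h3 (lt_trans hi ht)))
  exact hI _ _ _ _ (hq a t ha ht) (hq b t hb ht) (hq c t hc ht) (hN t ht)
    (hne a b ha hb hab) (hne a c ha hc hac) (hne b c hb hc hbc) h

/-- **The adding trick.** -/
theorem Comb.adding {C : Comb X N} (hI : C.Iff) {w x y z : ℕ} (hw : w < z) (hx : x < z)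
    (hy : y < z) (hz : z + 1 < N) (hwx : w ≠ x) (hwy : w ≠ y) (hxy : x ≠ y)
    (h1 : C.e w x ≤ C.e w y) (h2 : C.e w y ≤ C.e y z) : C.e w x ≤ C.e x z := by
  have k1 := C.key w x y z hw hx hy (by omega) hwx hwy hxy h1
  have k2 := C.key y w z (z + 1) (by omega) (by omega) (by omega) hz hwy.symm hy.ne hw.ne
    (by rw [C.symm y w]; exact h2)
  have k3 := hI x w z (z + 1) (by omega) (by omega) (by omega) hz hwx.symm hx.ne hw.ne (by
    rw [dist_comm (C.x y) (C.x w)] at k2
    rw [dist_comm (C.x x) (C.x w)]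
    linarith)
  rw [C.symm x w] at k3
  exact k3

/-- **The dual adding trick.** -/
theorem Comb.adding' {C : Comb X N} (hI : C.Iff) {w x y z : ℕ} (hw : w < z) (hx : x < z)
    (hy : y < z) (hz : z + 1 < N) (hwx : w ≠ x) (hwy : w ≠ y) (hxy : x ≠ y)
    (h1 : C.e w y ≤ C.e w x) (h2 : C.e y z ≤ C.e w y) : C.e x z ≤ C.e w x := by
  have k1 := C.key w y x z hw hy hx (by omega) hwy hwx hxy.symm h1
  have k2 := C.key y z w (z + 1) (by omega) (by omega) (by omega) hz hy.ne hwy.symm hw.ne'
    (by rw [C.symm y w]; exact h2)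
  have k3 := hI x z w (z + 1) (by omega) (by omega) (by omega) hz hx.ne hwx.symm hw.ne' (by
    rw [dist_comm (C.x y) (C.x w)] at k2
    rw [dist_comm (C.x x) (C.x w)]
    linarith)
  rw [C.symm x w] at k3
  exact k3

theorem Comb.savUM (C : Comb X N) (hI : C.Iff)
    (hH : ∀ a b c, a < b → b < c → c + 1 < N → C.e b c ≤ C.e a b) {p : ℕ}
    (hN : 2 * (2 * p ^ 2 + 2 * p) ≤ N) : Sav X p := by
  classical
  refine U.U_main (C := C.sub (M := 2 * p ^ 2 + 2 * p) (fun i => 2 * i)
    (fun i j hij _ => by omega) (fun i hi => by omega)) ?_ p le_rfl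
  intro a b c hac hbc hcM hab
  show C.e (2 * a) (2 * c) ≤ C.e (2 * a) (2 * b)
  rcases lt_or_gt_of_ne hab with h | h
  · have h1 := C.adding' hI (w := 2 * b) (x := 2 * a) (y := 2 * b + 1) (z := 2 * c) (by omega)
      (by omega) (by omega) (by omega) (by omega) (by omega) (by omega)
      (by rw [C.symm (2 * b) (2 * a)]; exact hH _ _ _ (by omega) (by omega) (by omega))
      (hH _ _ _ (by omega) (by omega) (by omega))
    rw [C.symm (2 * b) (2 * a)] at h1
    exact h1
  · rw [C.symm (2 * a) (2 * b)]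
    exact hH _ _ _ (by omega) (by omega) (by omega)

/-- **First pass**, with equivalences. -/
theorem exists_combI (X : Type) [MetricSpace X] [Fintype X] (N : ℕ)
    (h : 2 ^ ((N + 2) ^ 4) ≤ Fintype.card X) : ∃ C : Comb X N, C.Iff := by
  classical
  have hpos : 0 < Fintype.card X := lt_of_lt_of_le (by positivity) h
  obtain ⟨x0⟩ := Fintype.card_pos_iff.1 hpos
  obtain ⟨x, V, H, -, -, hinj, -, hRt⟩ := exists_endhom
    (fun a b c v => dist a b + dist c v ≤ dist a c + dist b v) x0 (N + 1) 0 (by
      rw [Nat.zero_add, Nat.mul_one]; exact h)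
  refine ⟨⟨x, fun i j hi hj => hinj i j (by omega) (by omega),
    fun i j => dist (x i) (x j) - dist (x i) (x N) - dist (x j) (x N), ?_, ?_⟩, ?_⟩
  · intro i j
    rw [dist_comm (x i) (x j)]
    ring
  · intro a b c t ha hb hc ht _ _ _ he
    have h1 := hRt a b c t ha hb hc (by omega)
    have h2 := hRt a b c N (by omega) (by omega) (by omega) (by omega)
    rw [h1, ← h2]
    have h3 : dist (x a) (x b) - dist (x a) (x N) - dist (x b) (x N) ≤
      dist (x a) (x c) - dist (x a) (x N) - dist (x c) (x N) := he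
    linarith
  · intro a b c t ha hb hc ht _ _ _ he
    have h1 := hRt a b c t ha hb hc (by omega)
    have h2 := hRt a b c N (by omega) (by omega) (by omega) (by omega)
    have h3 := h2.2 (h1.1 he)
    show dist (x a) (x b) - dist (x a) (x N) - dist (x b) (x N) ≤
      dist (x a) (x c) - dist (x a) (x N) - dist (x c) (x N)
    linarith

end Pool.Agent.Lib.MP_293cc0_an
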